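import Pool.Agent.V11238.MG.JI

/-!
# Residually finite groups whose infinite-index subgroups are finite
-/

set_option autoImplicit false

open Subgroup Pool.Agent.V11238.MG

namespace Pool.Agent.Results.MP_604659_al.TorsionReduction

/-- `G` is a counterexample for Q1: residually finite, every subgroup of infinite index is finite,
and no cyclic subgroup has finite index. -/
def Counterexample (G : Type) [Group G] : Prop :=
  (∀ g : G, g ≠ 1 → ∃ N : Subgroup G, N.Normal ∧ N.FiniteIndex ∧ g ∉ N) ∧
    (∀ H : Subgroup G, H.index = 0 → (H : Set G).Finite) ∧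
    ¬ ∃ C : Subgroup G, IsCyclic C ∧ C.FiniteIndex

/-- Every nontrivial normal subgroup of every subgroup of finite index has finite index. -/
def HJI (G : Type) [Group G] : Prop :=
  ∀ H : Subgroup G, H.FiniteIndex → ∀ L : Subgroup H, L.Normal → L ≠ ⊥ → L.FiniteIndex

theorem fg_of_index {G : Type} [Group G] (s : Set G) (hs : s.Finite)
    (h : (closure s).FiniteIndex) : Group.FG G := by
  have hfin : Finite (G ⧸ closure s) := inferInstance
  have h1 : (s ∪ Set.range (Quotient.out : G ⧸ closure s → G)).Finite :=
    hs.union (Set.finite_range _)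
  refine ⟨⟨h1.toFinset, ?_⟩⟩
  rw [h1.coe_toFinset, eq_top_iff]
  intro g _
  have h2 : (QuotientGroup.mk g : G ⧸ closure s).out⁻¹ * g ∈ closure s := by
    rw [← QuotientGroup.eq]
    exact Quotient.out_eq' _
  have h3 : g = (QuotientGroup.mk g : G ⧸ closure s).out *
      ((QuotientGroup.mk g : G ⧸ closure s).out⁻¹ * g) := by group
  rw [h3]
  exact mul_mem (subset_closure (Or.inr ⟨_, rfl⟩)) (closure_mono Set.subset_union_left h2)

/-- Every counterexample is an infinite torsion group, and it is locally finite or finitely
generated; in the second case it has a finite normal subgroup whose quotient is a finitely generated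
hereditarily just infinite counterexample. -/
theorem result (G : Type) [Group G] (h : Counterexample G) :
    Infinite G ∧ (∀ g : G, IsOfFinOrder g) ∧
    ((∀ s : Set G, s.Finite → (closure s : Set G).Finite) ∨
      (Group.FG G ∧ ∃ (M : Subgroup G) (_ : M.Normal), Finite M ∧ Counterexample (G ⧸ M) ∧
        Group.FG (G ⧸ M) ∧ HJI (G ⧸ M))) := by
  obtain ⟨hrf, hF, hnc⟩ := h
  have hinf : Infinite G := by
    by_contra hcon
    rw [not_infinite_iff_finite] at hcon
    exact hnc ⟨⊥, inferInstance, inferInstance⟩
  have ht : ∀ g : G, IsOfFinOrder g := by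
    intro g
    by_contra hg
    apply hnc
    refine ⟨zpowers g, inferInstance, ⟨fun h0 => hg ?_⟩⟩
    exact finite_zpowers.1 (hF _ h0)
  refine ⟨hinf, ht, ?_⟩
  by_cases hlf : ∀ s : Set G, s.Finite → (closure s : Set G).Finite
  · exact Or.inl hlf
  · right
    push Not at hlf
    obtain ⟨s, hs, hcs⟩ := hlf
    have hfi : (closure s).FiniteIndex := ⟨fun h0 => hcs (hF _ h0)⟩
    have hfg : Group.FG G := fg_of_index s hs hfi
    have hF' : ∀ H : Subgroup G, Finite H ∨ H.FiniteIndex := by
      intro H
      by_cases h0 : H.index = 0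
      · exact Or.inl (hF H h0).to_subtype
      · exact Or.inr ⟨h0⟩
    have hfin : Finite (fcore G) := fcore_finite hF'
    have hinfQ : Infinite (G ⧸ fcore G) := infinite_quot_finite (fcore G)
    have hFQ := quot_dichotomy hF' (fcore G)
    have htQ : ∀ g : G ⧸ fcore G, IsOfFinOrder g := by
      intro q
      obtain ⟨g, rfl⟩ := QuotientGroup.mk'_surjective _ q
      exact (QuotientGroup.mk' (fcore G)).isOfFinOrder (ht g)
    refine ⟨hfg, fcore G, inferInstance, hfin, ⟨RF.quot hrf (fcore G), ?_, ?_⟩, inferInstance,
      fun H hH L hL hne => hji htQ hFQ (quot_core_trivial hF') H L hL hne⟩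
    · intro H h0
      rcases hFQ H with h1 | h1
      · exact Set.toFinite _
      · exact absurd h0 h1.index_ne_zero
    · rintro ⟨C, hC, hCfi⟩
      obtain ⟨c, hc⟩ := IsCyclic.exists_generator (α := C)
      have := finite_of_abelian_index htQ C (by
        intro x y
        obtain ⟨i, rfl⟩ := mem_zpowers_iff.1 (hc x)
        obtain ⟨j, rfl⟩ := mem_zpowers_iff.1 (hc y)
        rw [← zpow_add, ← zpow_add, add_comm])
      exact hinfQ.not_finite this

end Pool.Agent.Results.MP_604659_al.TorsionReduction
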